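import Mathlib
import Pool.Agent.Helper75.PM.Stm
import Pool.Graph.R_seed8.H437R2.A1

/-! PM, package SF: properties of the function `FF`. -/

set_option autoImplicit false

open Complex Filter Topology MeasureTheory

namespace Pool.Agent.Helper68.PM

open Pool.Agent.Helper75.PM
open Pool.Agent.H437R2 (z1_norm_le z1_of_ne)

lemma npow_norm {n : ℕ} (hn : 1 ≤ n) (s : ℂ) : ‖(n : ℂ) ^ (-s)‖ = (n : ℝ) ^ (-s.re) := by
  rw [Complex.norm_natCast_cpow_of_pos (by omega)]; simp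

lemma Dp_norm_le {N : ℕ} {a : ℕ → ℝ} (ha : ∀ n, |a n| ≤ 1) {s : ℂ} (hs : 0 ≤ s.re) :
    ‖Dp N a s‖ ≤ N := by
  unfold Dp
  calc ‖∑ n ∈ Finset.Icc 1 N, (a n : ℂ) * (n : ℂ) ^ (-s)‖
      ≤ ∑ n ∈ Finset.Icc 1 N, ‖(a n : ℂ) * (n : ℂ) ^ (-s)‖ := norm_sum_le _ _
    _ ≤ ∑ n ∈ Finset.Icc 1 N, (1 : ℝ) := by
        refine Finset.sum_le_sum fun n hn => ?_
        have hn1 := (Finset.mem_Icc.1 hn).1
        rw [norm_mul, npow_norm hn1, Complex.norm_real, Real.norm_eq_abs]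
        have h1 : (n : ℝ) ^ (-s.re) ≤ 1 :=
          Real.rpow_le_one_of_one_le_of_nonpos (by exact_mod_cast hn1) (by linarith)
        have h2 : (0 : ℝ) ≤ (n : ℝ) ^ (-s.re) := by positivity
        calc |a n| * (n : ℝ) ^ (-s.re) ≤ 1 * 1 := by
              gcongr
              exact ha n
          _ = 1 := by norm_num
    _ = N := by simp

lemma Dp_diff (N : ℕ) (a : ℕ → ℝ) (s : ℂ) : DifferentiableAt ℂ (Dp N a) s := by
  unfold Dp
  apply DifferentiableAt.fun_sum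
  intro n hn
  have hn1 := (Finset.mem_Icc.1 hn).1
  have h0 : (n : ℂ) ≠ 0 := by exact_mod_cast (by omega : n ≠ 0)
  exact (DifferentiableAt.const_cpow (by fun_prop) (Or.inl h0)).const_mul _

/-- the sum of the squares -/
lemma sum_sq (N : ℕ) (hN : 1 ≤ N) : ∑ n ∈ Finset.Icc 2 N, (1 : ℝ) / (n : ℝ) ^ 2 ≤ 1 - 1 / N := by
  induction N, hN using Nat.le_induction with
  | base => simp
  | succ N hN ih =>
    rw [Finset.sum_Icc_succ_top (by omega)]
    have h1 : (0 : ℝ) < N := by exact_mod_cast hN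
    have h2 : 1 / (((N + 1 : ℕ) : ℝ)) ^ 2 ≤ 1 / (N : ℝ) - 1 / ((N + 1 : ℕ) : ℝ) := by
      push_cast
      rw [div_sub_div _ _ h1.ne' (by positivity), div_le_div_iff₀ (by positivity) (by positivity)]
      nlinarith
    linarith

lemma Dp_sub_one {N : ℕ} {a : ℕ → ℝ} (hN : 1 ≤ N) (h1 : a 1 = 1) (ha : ∀ n, |a n| ≤ 1) {s : ℂ}
    (hs : s.re = 81 / 2) : ‖Dp N a s - 1‖ ≤ 1 / 10 ^ 6 := by
  unfold Dp
  have h2 : ∑ n ∈ Finset.Icc 1 N, (a n : ℂ) * (n : ℂ) ^ (-s) =
      1 + ∑ n ∈ Finset.Icc 2 N, (a n : ℂ) * (n : ℂ) ^ (-s) := by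
    rw [← Finset.add_sum_Ioc_eq_sum_Icc hN]
    congr 1
    · rw [h1]; simp
  rw [h2, add_sub_cancel_left]
  calc ‖∑ n ∈ Finset.Icc 2 N, (a n : ℂ) * (n : ℂ) ^ (-s)‖
      ≤ ∑ n ∈ Finset.Icc 2 N, ‖(a n : ℂ) * (n : ℂ) ^ (-s)‖ := norm_sum_le _ _
    _ ≤ ∑ n ∈ Finset.Icc 2 N, (1 / 10 ^ 6) * ((1 : ℝ) / (n : ℝ) ^ 2) := by
        refine Finset.sum_le_sum fun n hn => ?_
        have hn2 := (Finset.mem_Icc.1 hn).1
        rw [norm_mul, npow_norm (by omega), Complex.norm_real, Real.norm_eq_abs, hs]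
        have hn2' : (2 : ℝ) ≤ n := by exact_mod_cast hn2
        have h3 : (n : ℝ) ^ (-(81 / 2 : ℝ)) ≤ (n : ℝ) ^ (-(40 : ℝ)) :=
          Real.rpow_le_rpow_of_exponent_le (by linarith) (by norm_num)
        have h4 : (n : ℝ) ^ (-(40 : ℝ)) = 1 / (n : ℝ) ^ 38 * (1 / (n : ℝ) ^ 2) := by
          rw [Real.rpow_neg (by positivity), show (40 : ℝ) = ((40 : ℕ) : ℝ) by norm_num,
            Real.rpow_natCast]
          field_simp
        have h5 : 1 / (n : ℝ) ^ 38 ≤ 1 / 10 ^ 6 := by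
          apply one_div_le_one_div_of_le (by norm_num)
          calc (10 : ℝ) ^ 6 ≤ 2 ^ 38 := by norm_num
            _ ≤ (n : ℝ) ^ 38 := by gcongr
        calc |a n| * (n : ℝ) ^ (-(81 / 2 : ℝ)) ≤ 1 * (1 / (n : ℝ) ^ 38 * (1 / (n : ℝ) ^ 2)) := by
              rw [← h4]
              exact mul_le_mul (ha n) h3 (by positivity) (by norm_num)
          _ ≤ (1 / 10 ^ 6) * (1 / (n : ℝ) ^ 2) := by
              rw [one_mul]
              gcongr
    _ = (1 / 10 ^ 6) * ∑ n ∈ Finset.Icc 2 N, ((1 : ℝ) / (n : ℝ) ^ 2) := by rw [Finset.mul_sum]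
    _ ≤ (1 / 10 ^ 6) * 1 := by
        gcongr
        have := sum_sq N hN
        have h6 : (0 : ℝ) ≤ 1 / N := by positivity
        linarith
    _ = 1 / 10 ^ 6 := by ring

lemma zeta_sub_one {s : ℂ} (hs : s.re = 81 / 2) : ‖riemannZeta s - 1‖ ≤ 1 / 10 ^ 6 := by
  have h1 : 1 < s.re := by rw [hs]; norm_num
  have h2 := zeta_eq_tsum_one_div_nat_add_one_cpow h1
  have hsum : Summable fun n : ℕ => 1 / (n : ℂ) ^ s := Complex.summable_one_div_nat_cpow.2 h1
  have hsum' : Summable fun n : ℕ => 1 / (n + 1 : ℂ) ^ s := by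
    have := (summable_nat_add_iff 1).2 hsum
    simpa using this
  have h3 := hsum'.hasSum.tendsto_sum_nat
  rw [← h2] at h3
  have h4 : Tendsto (fun N : ℕ => ‖(∑ n ∈ Finset.range (N + 1), 1 / (n + 1 : ℂ) ^ s) - 1‖) atTop
      (𝓝 ‖riemannZeta s - 1‖) :=
    (((tendsto_add_atTop_iff_nat 1).2 h3).sub_const 1).norm
  refine le_of_tendsto h4 (Eventually.of_forall fun N => ?_)
  have h5 : ∑ n ∈ Finset.range (N + 1), 1 / (n + 1 : ℂ) ^ s = Dp (N + 1) (fun _ => 1) s := by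
    unfold Dp
    have h6 := Finset.sum_Ico_add' (fun n : ℕ => 1 / (n : ℂ) ^ s) 0 (N + 1) 1
    rw [Finset.range_eq_Ico]
    have h7 : Finset.Icc 1 (N + 1) = Finset.Ico (0 + 1) (N + 1 + 1) := by
      ext m; simp
    rw [h7]
    push_cast at h6
    rw [h6]
    refine Finset.sum_congr rfl fun n _ => ?_
    rw [Complex.ofReal_one, one_mul, Complex.cpow_neg, one_div]
  rw [h5]
  exact Dp_sub_one (by omega) rfl (by simp) hs

/-- SF -/
theorem sF : S_F := by
  refine ⟨3, 10 ^ 6, by norm_num, ?_⟩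
  intro N a hN h1 ha
  refine ⟨?_, ?_, ?_, ?_, ?_⟩
  · intro s hs
    have h2 : s + 1 ≠ 0 := by
      intro h
      have := congrArg Complex.re h
      simp at this
      linarith
    have h3 : DifferentiableAt ℂ (fun z : ℂ => riemannZeta₁ z / (z + 1)) s :=
      (differentiable_riemannZeta₁ s).div (by fun_prop) h2
    exact h3.mul (Dp_diff N a s)
  · intro s hs
    unfold FF
    have h2 : 1 ≤ ‖s + 1‖ := by
      have h3 := Complex.abs_re_le_norm (s + 1)
      have h4 : (s + 1).re = s.re + 1 := by simp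
      rw [h4, abs_of_nonneg (by linarith)] at h3
      linarith
    have h3 := z1_norm_le hs
    have h4 := Dp_norm_le (N := N) ha (s := s) (by linarith)
    rw [norm_mul, norm_div, show (2 : ℝ) = ((2 : ℕ) : ℝ) by norm_num, Real.rpow_natCast]
    calc ‖riemannZeta₁ s‖ / ‖s + 1‖ * ‖Dp N a s‖ ≤ ‖riemannZeta₁ s‖ * ‖Dp N a s‖ := by
          gcongr
          exact div_le_self (norm_nonneg _) h2
      _ ≤ (3 * (‖s‖ + 1) ^ 2) * N := by gcongr
      _ = 3 * N * (‖s‖ + 1) ^ 2 := by ring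
  · intro t
    unfold FF hh
    set s : ℂ := 1 / 2 + t * I with hs
    have hre : s.re = 1 / 2 := by simp [hs]
    have him : s.im = t := by simp [hs]
    have hs1 : s ≠ 1 := by
      intro h
      have := congrArg Complex.re h
      rw [hre] at this
      norm_num at this
    rw [z1_of_ne hs1, norm_mul, norm_div, norm_mul]
    gcongr
    have h2 : ‖s - 1‖ ≤ ‖s + 1‖ := by
      rw [← sq_le_sq₀ (norm_nonneg _) (norm_nonneg _), ← Complex.normSq_eq_norm_sq,
        ← Complex.normSq_eq_norm_sq, Complex.normSq_apply, Complex.normSq_apply]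
      simp only [Complex.sub_re, Complex.sub_im, Complex.add_re, Complex.add_im, Complex.one_re,
        Complex.one_im, hre, him]
      nlinarith
    have h3 : 0 < ‖s + 1‖ := by
      rw [norm_pos_iff]
      intro h
      have := congrArg Complex.re h
      simp [hre] at this
      norm_num at this
    rw [div_le_iff₀ h3]
    calc ‖s - 1‖ * ‖riemannZeta s‖ ≤ ‖s + 1‖ * ‖riemannZeta s‖ := by gcongr
      _ = ‖riemannZeta s‖ * ‖s + 1‖ := mul_comm _ _
  · intro ρ h2 _ h4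
    have hs1 : ρ ≠ 1 := by
      rintro rfl
      simp at h4
    unfold FF
    rw [z1_of_ne hs1, h2]
    simp
  · intro t ht
    set s : ℂ := 1 / 2 + (40 : ℝ) + t * I with hs
    have hre : s.re = 81 / 2 := by
      simp [hs]; norm_num
    have him : s.im = t := by simp [hs]
    have hs1 : s ≠ 1 := by
      intro h
      have := congrArg Complex.re h
      rw [hre] at this
      norm_num at this
    have h2 := zeta_sub_one hre
    have h3 := Dp_sub_one hN h1 ha hre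
    have h4 : t ≤ ‖s + 1‖ := by
      have h5 := Complex.abs_im_le_norm (s + 1)
      have h6 : (s + 1).im = t := by simp [him]
      rw [h6] at h5
      exact (le_abs_self t).trans h5
    have h5 : 0 < ‖s + 1‖ := by linarith
    have h6 : ‖(s - 1) / (s + 1) - 1‖ ≤ 2 / 10 ^ 6 := by
      have h7 : (s - 1) / (s + 1) - 1 = -2 / (s + 1) := by
        have : s + 1 ≠ 0 := norm_pos_iff.1 h5
        field_simp
        ring
      rw [h7, norm_div]
      have h8 : ‖(-2 : ℂ)‖ = 2 := by simp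
      rw [h8]
      gcongr
      linarith
    have e : ∀ {z : ℂ} {d : ℝ}, ‖z - 1‖ ≤ d → 1 - d ≤ ‖z‖ := by
      intro z d hz
      have := norm_sub_norm_le 1 z
      rw [norm_one, norm_sub_rev] at this
      linarith
    have g1 := e h2
    have g2 := e h3
    have g3 := e h6
    have g4 : FF N a s = (s - 1) / (s + 1) * riemannZeta s * Dp N a s := by
      unfold FF
      rw [z1_of_ne hs1]
      ring
    have g5 : 1 - 1 / 10 ^ 5 ≤ ‖FF N a s‖ := by
      rw [g4, norm_mul, norm_mul]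
      calc (1 : ℝ) - 1 / 10 ^ 5 ≤ (1 - 2 / 10 ^ 6) * (1 - 1 / 10 ^ 6) * (1 - 1 / 10 ^ 6) := by
            norm_num
        _ ≤ ‖(s - 1) / (s + 1)‖ * ‖riemannZeta s‖ * ‖Dp N a s‖ := by
            gcongr
    have g6 : 0 < ‖FF N a s‖ := by
      have : (0 : ℝ) < 1 - 1 / 10 ^ 5 := by norm_num
      linarith
    refine ⟨norm_pos_iff.1 g6, ?_⟩
    have g7 := Real.one_sub_inv_le_log_of_pos g6
    have g8 : ‖FF N a s‖⁻¹ ≤ (1 - 1 / 10 ^ 5)⁻¹ := by
      apply inv_anti₀ (by norm_num) g5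
    have g9 : (1 - 1 / 10 ^ 5 : ℝ)⁻¹ ≤ 1 + 1 / 1000 := by norm_num
    linarith

end Pool.Agent.Helper68.PM
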