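import Mathlib
import Pool.Agent.Helper68.PM.SF
import Pool.Agent.Helper75.PM.Stm2

/-! PM, package SF2: for `a` large the function `FF` is as close to `1` as we like at `Re s = 1/2 + a`. -/

set_option autoImplicit false

open Complex Filter Topology MeasureTheory

namespace Pool.Agent.Helper68.PM

open Pool.Agent.Helper75.PM
open Pool.Agent.H437R2 (z1_norm_le z1_of_ne)

lemma Dp_sub_one' {N : ℕ} {a : ℕ → ℝ} (hN : 1 ≤ N) (h1 : a 1 = 1) (ha : ∀ n, |a n| ≤ 1) {s : ℂ}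
    (hs : 2 ≤ s.re) : ‖Dp N a s - 1‖ ≤ (2 : ℝ) ^ (-(s.re - 2)) := by
  unfold Dp
  have h2 : ∑ n ∈ Finset.Icc 1 N, (a n : ℂ) * (n : ℂ) ^ (-s) =
      1 + ∑ n ∈ Finset.Icc 2 N, (a n : ℂ) * (n : ℂ) ^ (-s) := by
    rw [← Finset.add_sum_Ioc_eq_sum_Icc hN]
    congr 1
    · rw [h1]; simp
  rw [h2, add_sub_cancel_left]
  calc ‖∑ n ∈ Finset.Icc 2 N, (a n : ℂ) * (n : ℂ) ^ (-s)‖
      ≤ ∑ n ∈ Finset.Icc 2 N, ‖(a n : ℂ) * (n : ℂ) ^ (-s)‖ := norm_sum_le _ _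
    _ ≤ ∑ n ∈ Finset.Icc 2 N, ((2 : ℝ) ^ (-(s.re - 2))) * ((1 : ℝ) / (n : ℝ) ^ 2) := by
        refine Finset.sum_le_sum fun n hn => ?_
        have hn2 := (Finset.mem_Icc.1 hn).1
        rw [norm_mul, npow_norm (by omega), Complex.norm_real, Real.norm_eq_abs]
        have hn2' : (2 : ℝ) ≤ n := by exact_mod_cast hn2
        have h4 : (n : ℝ) ^ (-s.re) = (n : ℝ) ^ (-(s.re - 2)) * (1 / (n : ℝ) ^ 2) := by
          rw [show (1 : ℝ) / (n : ℝ) ^ 2 = (n : ℝ) ^ (-(2 : ℝ)) by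
            rw [Real.rpow_neg (by positivity), show (2 : ℝ) = ((2 : ℕ) : ℝ) by norm_num,
              Real.rpow_natCast, one_div], ← Real.rpow_add (by positivity)]
          congr 1
          ring
        have h5 : (n : ℝ) ^ (-(s.re - 2)) ≤ (2 : ℝ) ^ (-(s.re - 2)) :=
          Real.rpow_le_rpow_of_nonpos (by norm_num) hn2' (by linarith)
        calc |a n| * (n : ℝ) ^ (-s.re) ≤ 1 * (n : ℝ) ^ (-s.re) := by
              gcongr
              exact ha n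
          _ ≤ ((2 : ℝ) ^ (-(s.re - 2))) * (1 / (n : ℝ) ^ 2) := by
              rw [one_mul, h4]
              gcongr
    _ = ((2 : ℝ) ^ (-(s.re - 2))) * ∑ n ∈ Finset.Icc 2 N, ((1 : ℝ) / (n : ℝ) ^ 2) := by
        rw [Finset.mul_sum]
    _ ≤ ((2 : ℝ) ^ (-(s.re - 2))) * 1 := by
        gcongr
        have := sum_sq N hN
        have h6 : (0 : ℝ) ≤ 1 / N := by positivity
        linarith
    _ = _ := by ring

lemma zeta_sub_one' {s : ℂ} (hs : 2 ≤ s.re) : ‖riemannZeta s - 1‖ ≤ (2 : ℝ) ^ (-(s.re - 2)) := by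
  have h1 : 1 < s.re := by linarith
  have h2 := zeta_eq_tsum_one_div_nat_add_one_cpow h1
  have hsum : Summable fun n : ℕ => 1 / (n : ℂ) ^ s := Complex.summable_one_div_nat_cpow.2 h1
  have hsum' : Summable fun n : ℕ => 1 / (n + 1 : ℂ) ^ s := by
    have := (summable_nat_add_iff 1).2 hsum
    simpa using this
  have h3 := hsum'.hasSum.tendsto_sum_nat
  rw [← h2] at h3
  have h4 : Tendsto (fun N : ℕ => ‖(∑ n ∈ Finset.range (N + 1), 1 / (n + 1 : ℂ) ^ s) - 1‖) atTop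
      (𝓝 ‖riemannZeta s - 1‖) :=
    (((tendsto_add_atTop_iff_nat 1).2 h3).sub_const 1).norm
  refine le_of_tendsto h4 (Eventually.of_forall fun N => ?_)
  have h5 : ∑ n ∈ Finset.range (N + 1), 1 / (n + 1 : ℂ) ^ s = Dp (N + 1) (fun _ => 1) s := by
    unfold Dp
    have h6 := Finset.sum_Ico_add' (fun n : ℕ => 1 / (n : ℂ) ^ s) 0 (N + 1) 1
    rw [Finset.range_eq_Ico]
    have h7 : Finset.Icc 1 (N + 1) = Finset.Ico (0 + 1) (N + 1 + 1) := by
      ext m; simp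
    rw [h7]
    push_cast at h6
    rw [h6]
    refine Finset.sum_congr rfl fun n _ => ?_
    rw [Complex.ofReal_one, one_mul, Complex.cpow_neg, one_div]
  rw [h5]
  exact Dp_sub_one' (by omega) rfl (by simp) hs

/-- SF2 -/
theorem sF2 : S_F2 := by
  intro κ hκ
  obtain ⟨δ, hδ⟩ : ∃ δ : ℝ, δ = min (1 / 2) (κ / 6) := ⟨_, rfl⟩
  have hδ0 : 0 < δ := by rw [hδ]; exact lt_min (by norm_num) (by linarith)
  have hδ1 : δ ≤ 1 / 2 := by rw [hδ]; exact min_le_left _ _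
  have hδ2 : δ ≤ κ / 6 := by rw [hδ]; exact min_le_right _ _
  have hlim : Tendsto (fun x : ℝ => (2 : ℝ) ^ (-x)) atTop (𝓝 0) := by
    have := tendsto_rpow_atTop_of_base_lt_one (2⁻¹ : ℝ) (by norm_num) (by norm_num)
    refine this.congr fun x => ?_
    rw [Real.inv_rpow (by norm_num), Real.rpow_neg (by norm_num)]
  obtain ⟨x₀, hx₀⟩ := (hlim.eventually_le_const hδ0).exists_forall_of_atTop
  refine ⟨max x₀ 0 + 2, fun b hb => ⟨2 / δ, fun N a hN h1 ha t ht => ?_⟩⟩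
  have hb0 : 0 ≤ max x₀ 0 := le_max_right _ _
  set s : ℂ := 1 / 2 + b + t * I with hs
  have hre : s.re = 1 / 2 + b := by simp [hs]
  have him : s.im = t := by simp [hs]
  have hs2 : 2 ≤ s.re := by rw [hre]; linarith
  have hs1 : s ≠ 1 := by
    intro h
    rw [h] at hs2
    norm_num at hs2
  have hsmall : (2 : ℝ) ^ (-(s.re - 2)) ≤ δ := by
    apply hx₀
    rw [hre]
    linarith [le_max_left x₀ 0]
  have h2 := (zeta_sub_one' hs2).trans hsmall
  have h3 := (Dp_sub_one' hN h1 ha hs2).trans hsmall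
  have h4 : t ≤ ‖s + 1‖ := by
    have h5 := Complex.abs_im_le_norm (s + 1)
    have h6 : (s + 1).im = t := by simp [him]
    rw [h6] at h5
    exact (le_abs_self t).trans h5
  have ht0 : 0 < 2 / δ := by positivity
  have h5 : 0 < ‖s + 1‖ := by linarith
  have h6 : ‖(s - 1) / (s + 1) - 1‖ ≤ δ := by
    have h7 : (s - 1) / (s + 1) - 1 = -2 / (s + 1) := by
      have : s + 1 ≠ 0 := norm_pos_iff.1 h5
      field_simp
      ring
    rw [h7, norm_div]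
    have h8 : ‖(-2 : ℂ)‖ = 2 := by simp
    rw [h8, div_le_iff₀ h5]
    have h9 : 2 / δ ≤ ‖s + 1‖ := ht.trans h4
    rw [div_le_iff₀ hδ0] at h9
    linarith
  have e : ∀ {z : ℂ} {d : ℝ}, ‖z - 1‖ ≤ d → 1 - d ≤ ‖z‖ := by
    intro z d hz
    have := norm_sub_norm_le 1 z
    rw [norm_one, norm_sub_rev] at this
    linarith
  have e2 : ∀ {z : ℂ}, 1 - δ ≤ ‖z‖ → -(κ / 3) ≤ Real.log ‖z‖ ∧ z ≠ 0 := by
    intro z hz
    have p : 0 < 1 - δ := by linarith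
    have p2 : 0 < ‖z‖ := by linarith
    refine ⟨?_, norm_pos_iff.1 p2⟩
    have g7 := Real.one_sub_inv_le_log_of_pos p2
    have g8 : ‖z‖⁻¹ ≤ (1 - δ)⁻¹ := inv_anti₀ p hz
    have g9 : (1 - δ)⁻¹ ≤ 1 + 2 * δ := by
      rw [inv_le_iff_one_le_mul₀ p]
      nlinarith
    linarith
  obtain ⟨g1, k1⟩ := e2 (e h2)
  obtain ⟨g2, k2⟩ := e2 (e h3)
  obtain ⟨g3, k3⟩ := e2 (e h6)
  have g4 : FF N a s = (s - 1) / (s + 1) * riemannZeta s * Dp N a s := by
    unfold FF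
    rw [z1_of_ne hs1]
    ring
  rw [g4]
  refine ⟨mul_ne_zero (mul_ne_zero k3 k1) k2, ?_⟩
  rw [norm_mul, norm_mul, Real.log_mul (mul_ne_zero (norm_ne_zero_iff.2 k3) (norm_ne_zero_iff.2 k1))
    (norm_ne_zero_iff.2 k2), Real.log_mul (norm_ne_zero_iff.2 k3) (norm_ne_zero_iff.2 k1)]
  linarith

end Pool.Agent.Helper68.PM
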